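import Mathlib

/-!
# Absolutely homogeneous edge-coloured graphs with countably infinite palette

A *graph with edge-colouring* (GEC) on `V` is a symmetric map `color : V → V → C` together with
a pseudocolour `e` such that `color x y = e` iff `x = y`.  It is *absolutely homogeneous* if every
colour-preserving map defined on an arbitrary subset of `V` extends to an automorphism.

Main result: there is no absolutely homogeneous GEC with palette of cardinality `ℵ₀` and vertex
set of cardinality `β` for any `β` with `ℵ₀ < β < 2 ^ ℵ₀`.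
-/

universe u v

open Cardinal Set

namespace Pool.Agent.Results.MP_0b7070_lc.CountablePalette

/-- A graph with edge-colouring on the vertex set `V`, with colours (and the pseudocolour `e`)
in `C`. -/
structure GEC (V : Type u) (C : Type v) where
  /-- the colour of a pair -/
  color : V → V → C
  /-- the pseudocolour -/
  e : C
  symm : ∀ x y, color x y = color y x
  eq_iff : ∀ x y, color x y = e ↔ x = y

namespace GEC

variable {V : Type u} {C : Type v}

/-- The palette: the set of colours of pairs of distinct vertices. -/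
def palette (G : GEC V C) : Set C := {c | ∃ x y, x ≠ y ∧ G.color x y = c}

/-- A partial morphism defined on the subset `A` of `V`. -/
def IsPartialMorphism (G : GEC V C) (A : Set V) (f : A → V) : Prop :=
  ∀ x y : A, G.color (f x) (f y) = G.color x y

/-- An automorphism: a bijection of `V` which preserves colours. -/
def IsAut (G : GEC V C) (g : V → V) : Prop :=
  Function.Bijective g ∧ ∀ x y, G.color (g x) (g y) = G.color x y

/-- Absolute homogeneity: every partial morphism, defined on an arbitrary (finite or infinite)
subset, extends to an automorphism. -/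
def AbsHomogeneous (G : GEC V C) : Prop :=
  ∀ (A : Set V) (f : A → V), G.IsPartialMorphism A f →
    ∃ g : V → V, G.IsAut g ∧ ∀ x : A, g x = f x

variable {G : GEC V C}

/-- Absolute homogeneity for indexed families. -/
theorem AbsHomogeneous.extend (hG : G.AbsHomogeneous) {ι : Type*} (a b : ι → V)
    (h : ∀ i j, G.color (b i) (b j) = G.color (a i) (a j)) :
    ∃ g : V → V, G.IsAut g ∧ ∀ i, g (a i) = b i := by
  classical
  have key : ∀ i j, a i = a j → b i = b j := by
    intro i j hij
    have h1 := h i j
    rw [hij, (G.eq_iff (a j) (a j)).2 rfl] at h1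
    exact (G.eq_iff _ _).1 h1
  let f : Set.range a → V := fun x => b (Classical.choose x.2)
  have hf : ∀ i, f ⟨a i, i, rfl⟩ = b i := by
    intro i
    have hs : a (Classical.choose (⟨i, rfl⟩ : ∃ y, a y = a i)) = a i :=
      Classical.choose_spec (⟨i, rfl⟩ : ∃ y, a y = a i)
    exact key _ _ hs
  have hpm : G.IsPartialMorphism (Set.range a) f := by
    rintro ⟨_, i, rfl⟩ ⟨_, j, rfl⟩
    rw [hf i, hf j]
    exact h i j
  obtain ⟨g, hg, hgf⟩ := hG _ f hpm
  refine ⟨g, hg, fun i => ?_⟩
  have := hgf ⟨a i, i, rfl⟩
  rw [hf i] at this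
  exact this

/-- An absolutely homogeneous GEC has no infinite monochromatic set. -/
theorem AbsHomogeneous.no_infinite_mono (hG : G.AbsHomogeneous) (c : C) (M : Set V)
    (hM : M.Infinite) (hc : ∀ x ∈ M, ∀ y ∈ M, x ≠ y → G.color x y = c) : False := by
  classical
  -- a maximal monochromatic set above `M`
  obtain ⟨N, hMN, hN⟩ := zorn_subset_nonempty
    {N : Set V | ∀ x ∈ N, ∀ y ∈ N, x ≠ y → G.color x y = c} (by
      intro S hS hchain hne
      refine ⟨⋃₀ S, ?_, fun s hs => subset_sUnion_of_mem hs⟩
      rintro x ⟨s, hs, hxs⟩ y ⟨t, ht, hyt⟩ hxy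
      rcases hchain.total hs ht with h | h
      · exact hS ht x (h hxs) y hyt hxy
      · exact hS hs x hxs y (h hyt) hxy) M hc
  have hNinf : N.Infinite := hM.mono hMN
  have : Infinite N := hNinf.to_subtype
  obtain ⟨m⟩ : Nonempty N := inferInstance
  have hcard := mk_compl_finset_of_infinite ({m} : Finset N)
  obtain ⟨eqv⟩ := Cardinal.eq.1 hcard
  -- the injection of `N` into `N \ {m}`
  let b : N → V := fun x => ((eqv.symm x : N) : V)
  have hbN : ∀ x, b x ∈ N := fun x => (eqv.symm x : N).2
  have hbm : ∀ x, b x ≠ m := by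
    intro x hx
    have h1 : ((eqv.symm x : N)) = m := Subtype.ext hx
    have h2 := (eqv.symm x).2
    simp only [Finset.coe_singleton, mem_compl_iff, mem_singleton_iff] at h2
    exact h2 h1
  have hbinj : Function.Injective b := by
    intro x y hxy
    have : (eqv.symm x : N) = (eqv.symm y : N) := Subtype.ext hxy
    exact eqv.symm.injective (Subtype.ext this)
  obtain ⟨g, ⟨hgb, hgc⟩, hgab⟩ := hG.extend (fun x : N => (x : V)) b (by
    intro x y
    by_cases hxy : x = y
    · subst hxy
      rw [(G.eq_iff _ _).2 rfl, (G.eq_iff _ _).2 rfl]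
    · rw [hN.prop x x.2 y y.2 (fun h => hxy (Subtype.ext h)),
        hN.prop _ (hbN x) _ (hbN y) (fun h => hxy (hbinj h))])
  obtain ⟨m', hm'⟩ := hgb.2 (m : V)
  have hm'N : m' ∉ N := by
    intro h
    have := hgab ⟨m', h⟩
    simp only at this
    rw [hm'] at this
    exact hbm _ this.symm
  have hmono : ∀ x ∈ N, G.color x m' = c := by
    intro x hx
    rw [← hgc x m', hm']
    have h1 := hgab ⟨x, hx⟩
    simp only at h1
    rw [h1]
    exact hN.prop _ (hbN _) _ m.2 (hbm _)
  have hins : (insert m' N) ∈
      {N : Set V | ∀ x ∈ N, ∀ y ∈ N, x ≠ y → G.color x y = c} := by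
    intro x hx y hy hxy
    rcases hx with rfl | hx
    · rcases hy with rfl | hy
      · exact absurd rfl hxy
      · rw [G.symm]; exact hmono y hy
    · rcases hy with rfl | hy
      · exact hmono x hx
      · exact hN.prop x hx y hy hxy
  have := hN.le_of_ge hins (subset_insert _ _)
  exact hm'N (this (mem_insert _ _))

/-- Vertices with the same colours as `v` to the first components of the pairs in `s`. -/
def Fib (G : GEC V C) (v : V) (s : List (V × V)) : Set V :=
  {u | ∀ p ∈ s, G.color u p.1 = G.color v p.1}

/-- The pairs in `s` form a partial morphism, and the type of `v` over the domain is realised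
by uncountably many vertices. -/
def Good (G : GEC V C) (v : V) (s : List (V × V)) : Prop :=
  (∀ p ∈ s, ∀ q ∈ s, G.color p.2 q.2 = G.color p.1 q.1) ∧ ¬ (G.Fib v s).Countable

/-- The extension step. -/
theorem AbsHomogeneous.step (hG : G.AbsHomogeneous) (hP : G.palette.Countable) (v : V)
    (s : List (V × V)) (hs : G.Good v s) :
    ∃ (b : V) (w : Bool → V), G.color v (w true) ≠ G.color v (w false) ∧
      ∀ i, G.Good v ((w i, b) :: s) := by
  classical
  set S := G.Fib v s with hS
  have hvS : v ∈ S := fun p _ => rfl
  -- homogeneity over the domain of `s`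
  have hom : ∀ u ∈ S, ∀ u' ∈ S, ∃ g : V → V, G.IsAut g ∧ g u = u' ∧ ∀ p ∈ s, g p.1 = p.1 := by
    intro u hu u' hu'
    obtain ⟨g, hg, hgab⟩ := hG.extend (ι := Option {p : V × V // p ∈ s})
      (fun o => o.elim u (fun p => p.1.1)) (fun o => o.elim u' (fun p => p.1.1)) (by
        rintro (_ | p) (_ | q)
        · simp only [Option.elim]
          rw [(G.eq_iff _ _).2 rfl, (G.eq_iff _ _).2 rfl]
        · simp only [Option.elim]
          rw [hu q.1 q.2, hu' q.1 q.2]
        · simp only [Option.elim]
          rw [G.symm, hu' p.1 p.2, G.symm p.1.1, hu p.1 p.2]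
        · rfl)
    refine ⟨g, hg, hgab none, fun p hp => hgab (some ⟨p, hp⟩)⟩
  -- colour neighbourhoods
  let N : C → V → Set V := fun c u => {z | z ∈ S ∧ G.color u z = c}
  have hNinv : ∀ c, ∀ u ∈ S, ∀ u' ∈ S, (N c u).Countable → (N c u').Countable := by
    intro c u hu u' hu' hcount
    obtain ⟨g, ⟨hgb, hgc⟩, hgu, hgs⟩ := hom u hu u' hu'
    have : N c u' ⊆ g '' N c u := by
      rintro z ⟨hzS, hzc⟩
      obtain ⟨z', rfl⟩ := hgb.2 z
      refine ⟨z', ⟨?_, ?_⟩, rfl⟩
      · intro p hp
        rw [← hzS p hp, ← hgc z' p.1, hgs p hp]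
      · rw [← hgc u z', hgu]; exact hzc
    exact (hcount.image g).mono this
  have hcover : ∀ u ∈ S, S ⊆ ({u} : Set V) ∪ ⋃ c ∈ G.palette, N c u := by
    intro u hu z hz
    by_cases hzu : z = u
    · left; exact hzu
    · right
      simp only [mem_iUnion]
      exact ⟨G.color u z, ⟨u, z, fun h => hzu h.symm, rfl⟩, hz, rfl⟩
  -- there are two big colours
  have htwo : ∃ c c', c ≠ c' ∧ ¬ (N c v).Countable ∧ ¬ (N c' v).Countable := by
    by_contra hcon
    push Not at hcon
    -- there is a big colour
    have hex : ∃ c ∈ G.palette, ¬ (N c v).Countable := by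
      by_contra hcon2
      push Not at hcon2
      refine hs.2 (((countable_singleton v).union (hP.biUnion hcon2)).mono (hcover v hvS))
    obtain ⟨c, hcP, hc⟩ := hex
    have hsmall : ∀ u ∈ S, (S \ N c u).Countable := by
      intro u hu
      have hcover' : S \ N c u ⊆ ({u} : Set V) ∪ ⋃ c' ∈ {c' | c' ∈ G.palette ∧ c' ≠ c}, N c' u := by
        rintro z ⟨hz, hzc⟩
        rcases hcover u hu hz with h | h
        · left; exact h
        · right
          simp only [mem_iUnion] at h ⊢
          obtain ⟨c', hc', hz'⟩ := h
          refine ⟨c', ⟨hc', ?_⟩, hz'⟩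
          rintro rfl
          exact hzc hz'
      refine (((countable_singleton u).union
        ((hP.mono (fun c' h => h.1)).biUnion ?_))).mono hcover'
      rintro c' ⟨_, hc'c⟩
      by_contra hbig
      have h1 : ¬ (N c' v).Countable := fun h => hbig (hNinv c' v hvS u hu h)
      exact h1 (hcon c c' (fun h => hc'c h.symm) hc)
    -- build an infinite monochromatic set
    have hnext : ∀ F : Finset V, (∀ x ∈ F, x ∈ S) → ∃ z ∈ S, z ∉ F ∧ ∀ x ∈ F, G.color x z = c := by
      intro F hF
      have hun : ¬ (S \ ((F : Set V) ∪ ⋃ x ∈ F, (S \ N c x))).Countable := by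
        intro hcount
        apply hs.2
        have h1 : ((F : Set V) ∪ ⋃ x ∈ F, (S \ N c x)).Countable :=
          F.countable_toSet.union (F.countable_toSet.biUnion (fun x hx => hsmall x (hF x hx)))
        refine (hcount.union h1).mono ?_
        intro z hz
        by_cases h : z ∈ ((F : Set V) ∪ ⋃ x ∈ F, (S \ N c x))
        · right; exact h
        · left; exact ⟨hz, h⟩
      have hne : (S \ ((F : Set V) ∪ ⋃ x ∈ F, (S \ N c x))).Nonempty := by
        rw [nonempty_iff_ne_empty]
        intro h
        rw [h] at hun
        exact hun countable_empty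
      obtain ⟨z, hzS, hz⟩ := hne
      refine ⟨z, hzS, fun h => hz (Or.inl h), ?_⟩
      intro x hx
      by_contra hxc
      apply hz
      right
      simp only [mem_iUnion]
      exact ⟨x, hx, hzS, fun h => hxc h.2⟩
    obtain ⟨seq, hseq⟩ := exists_seq_of_forall_finset_exists (fun x => x ∈ S)
      (fun x z => z ≠ x ∧ G.color x z = c) (by
        intro F hF
        obtain ⟨z, hzS, hzF, hz⟩ := hnext F hF
        exact ⟨z, hzS, fun x hx => ⟨fun h => hzF (h ▸ hx), hz x hx⟩⟩)
    have hinj : Function.Injective seq := by
      intro i j hij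
      rcases lt_trichotomy i j with h | h | h
      · exact absurd hij.symm (hseq.2 i j h).1
      · exact h
      · exact absurd hij (hseq.2 j i h).1
    refine hG.no_infinite_mono c (range seq) (infinite_range_of_injective hinj) ?_
    rintro _ ⟨i, rfl⟩ _ ⟨j, rfl⟩ hij
    rcases lt_trichotomy i j with h | h | h
    · exact (hseq.2 i j h).2
    · exact absurd (by rw [h]) hij
    · rw [G.symm]; exact (hseq.2 j i h).2
  obtain ⟨c, c', hcc', hc, hc'⟩ := htwo
  -- representatives
  have hnee : ∀ d, ¬ (N d v).Countable → ∃ w ∈ S, G.color v w = d := by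
    intro d hd
    by_contra hcon
    push Not at hcon
    apply hd
    have : N d v = ∅ := by
      ext z
      simp only [mem_ofPred_eq, mem_empty_iff_false, iff_false, N]
      rintro ⟨h1, h2⟩
      exact hcon z h1 h2
    rw [this]
    exact countable_empty
  obtain ⟨w, hwS, hw⟩ := hnee c hc
  obtain ⟨w', hwS', hw'⟩ := hnee c' hc'
  -- extend the partial morphism `s` to an automorphism
  obtain ⟨g, ⟨hgb, hgc⟩, hgs⟩ := hG.extend (ι := {p : V × V // p ∈ s})
    (fun p => p.1.1) (fun p => p.1.2) (fun p q => hs.1 p.1 p.2 q.1 q.2)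
  have hgood : ∀ z ∈ S, ∀ d, G.color v z = d → ¬ (N d v).Countable →
      G.Good v ((z, g w) :: s) := by
    intro z hz d hd hbig
    refine ⟨?_, ?_⟩
    · have hb : ∀ p ∈ s, G.color (g w) p.2 = G.color z p.1 := by
        intro p hp
        rw [← hgs ⟨p, hp⟩, hgc, hwS p hp, hz p hp]
      intro p hp q hq
      rcases List.mem_cons.1 hp with rfl | hp
      · rcases List.mem_cons.1 hq with rfl | hq
        · simp only
          rw [(G.eq_iff _ _).2 rfl, (G.eq_iff _ _).2 rfl]
        · exact hb q hq
      · rcases List.mem_cons.1 hq with rfl | hq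
        · simp only
          rw [G.symm, hb p hp, G.symm]
        · exact hs.1 p hp q hq
    · have h1 : ¬ (N d z).Countable := fun h => hbig (hNinv d z hz v hvS h)
      intro h2
      apply h1
      refine h2.mono ?_
      rintro y ⟨hyS, hyd⟩ p hp
      rcases List.mem_cons.1 hp with rfl | hp
      · simp only
        rw [G.symm, hyd, hd]
      · exact hyS p hp
  refine ⟨g w, fun i => if i then w else w', ?_, ?_⟩
  · simp only [if_true, Bool.false_eq_true, if_false]
    rw [hw, hw']
    exact hcc'
  · rintro (_ | _)
    · simp only [Bool.false_eq_true, if_false]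
      exact hgood w' hwS' c' hw' hc'
    · simp only [if_true]
      exact hgood w hwS c hw hc

/-- **Dichotomy**: an absolutely homogeneous GEC with countable palette and uncountable vertex
set has at least `2 ^ ℵ₀` vertices. -/
theorem AbsHomogeneous.continuum_le (hG : G.AbsHomogeneous) (hP : G.palette.Countable)
    (hV : ¬ (Set.univ : Set V).Countable) : (2 : Cardinal.{u}) ^ ℵ₀ ≤ #V := by
  classical
  have hne : Nonempty V := by
    by_contra h
    rw [not_nonempty_iff] at h
    exact hV (Set.countable_univ_iff.2 inferInstance)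
  have v : V := Classical.choice hne
  have h0 : G.Good v [] := by
    refine ⟨by simp, ?_⟩
    have : G.Fib v [] = Set.univ := by
      ext u; simp [Fib]
    rw [this]; exact hV
  choose! B W hW1 hW2 using fun s (hs : G.Good v s) => hG.step hP v s hs
  -- states along a branch
  let st : (ℕ → Bool) → ℕ → List (V × V) := fun x n =>
    Nat.rec [] (fun k s => (W s (x k), B s) :: s) n
  have st0 : ∀ x, st x 0 = [] := fun x => rfl
  have stS : ∀ x n, st x (n + 1) = (W (st x n) (x n), B (st x n)) :: st x n := fun x n => rfl
  have hgood : ∀ x n, G.Good v (st x n) := by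
    intro x n
    induction n with
    | zero => exact h0
    | succ n ih => rw [stS]; exact hW2 _ ih _
  have hmem : ∀ x n m, n < m → (W (st x n) (x n), B (st x n)) ∈ st x m := by
    intro x n m hnm
    induction m with
    | zero => omega
    | succ m ih =>
      rw [stS]
      rcases Nat.lt_succ_iff_lt_or_eq.1 hnm with h | h
      · exact List.mem_cons_of_mem _ (ih h)
      · subst h; exact List.mem_cons_self
  have hext : ∀ x : ℕ → Bool, ∃ g : V → V, G.IsAut g ∧
      ∀ n, g (W (st x n) (x n)) = B (st x n) := by
    intro x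
    refine hG.extend (fun n => W (st x n) (x n)) (fun n => B (st x n)) ?_
    intro n m
    have hn : n < max n m + 1 := by omega
    have hm : m < max n m + 1 := by omega
    exact (hgood x (max n m + 1)).1 _ (hmem x n _ hn) _ (hmem x m _ hm)
  choose g hg hgW using hext
  have hinj : Function.Injective (fun x : ℕ → Bool => g x v) := by
    intro x y hxy
    simp only at hxy
    by_contra hne
    have hex : ∃ n, x n ≠ y n := by
      by_contra h
      push Not at h
      exact hne (funext h)
    let n := Nat.find hex
    have hn : x n ≠ y n := Nat.find_spec hex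
    have hlt : ∀ m < n, x m = y m := fun m hm => not_not.1 (Nat.find_min hex hm)
    have hst : ∀ m ≤ n, st x m = st y m := by
      intro m hm
      induction m with
      | zero => rfl
      | succ m ih =>
        rw [stS, stS, ih (by omega), hlt m (by omega)]
    have h1 : G.color (g x v) (B (st x n)) = G.color v (W (st x n) (x n)) := by
      rw [← hgW x n, (hg x).2]
    have h2 : G.color (g y v) (B (st y n)) = G.color v (W (st y n) (y n)) := by
      rw [← hgW y n, (hg y).2]
    rw [hxy, hst n le_rfl, h2] at h1
    have h3 := hW1 _ (hgood y n)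
    cases hxn : x n <;> cases hyn : y n
    · exact hn (by rw [hxn, hyn])
    · rw [hxn, hyn] at h1; exact h3 h1
    · rw [hxn, hyn] at h1; exact h3 h1.symm
    · exact hn (by rw [hxn, hyn])
  have hle := Cardinal.mk_le_of_injective (α := ULift.{u} (ℕ → Bool)) (β := V)
    (f := fun x => g x.down v) (by
      intro x y hxy
      exact ULift.ext _ _ (hinj hxy))
  have hc : #(ULift.{u} (ℕ → Bool)) = (2 : Cardinal.{u}) ^ ℵ₀ := by
    simp
  rw [hc] at hle
  exact hle

end GEC

/-- There is no absolutely homogeneous GEC with countably infinite palette and `β` vertices,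
whenever `ℵ₀ < β < 2 ^ ℵ₀`. -/
theorem result :
    ∀ β : Cardinal.{u}, ℵ₀ < β → β < 2 ^ ℵ₀ →
      ¬ ∃ (V : Type u) (C : Type u) (G : GEC V C),
        G.AbsHomogeneous ∧ #G.palette = ℵ₀ ∧ #V = β := by
  rintro β h1 h2 ⟨V, C, G, hG, hP, hV⟩
  have hPc : G.palette.Countable := by
    rw [← Cardinal.le_aleph0_iff_set_countable, hP]
  have hun : ¬ (Set.univ : Set V).Countable := by
    rw [← Cardinal.le_aleph0_iff_set_countable, Cardinal.mk_univ, hV]
    exact not_le.2 h1
  have := hG.continuum_le hPc hun
  rw [hV] at this
  exact absurd h2 (not_lt.2 this)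

end Pool.Agent.Results.MP_0b7070_lc.CountablePalette
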